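import Pool.Agent.Y106.CG.TopMurre

/-!
# Murre's conjecture (D) for the fibres of a family

Let `g : Z ⟶ S` be a morphism of smooth projective varieties over a field whose cohomology has the
decomposition into perverse pieces given by the decomposition theorem (`PerverseDecomposition`).
Suppose that the total space `Z` satisfies the standard conjecture B, that the homologically trivial
self-correspondences of degree zero of `Z` are nilpotent, and that `Z` has a Chow-Kunneth
decomposition `π` which satisfies (D). No condition of this kind is imposed on the fibres. Then: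

* for each smooth fibre `F`, each system `ρ` of projectors onto the fixed parts of the groups `H^j(F)`
  satisfies (D);
* if for `j ≠ dim F` the space `H^j(F)` is spanned by the fixed part and the classes of algebraic
  cycles, then `F` has a Chow-Kunneth decomposition `π'` which satisfies (D) if and only if the middle
  projector kills the homologically trivial classes in `CH^l(F)` for `2 l ≤ dim F`; this is so if
  `dim F ≤ 3`.
-/

open CategoryTheory AlgebraicGeometry

universe u v

namespace Pool.Agent.Results.MP_583472_ag.FibresOfFamilies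

open Pool.Agent.H914 Pool.Agent.H914.VarClass Pool.Agent.H914.VarClass.Obj Pool.Agent.W498.Dom
  Pool.Agent.Y106.CG

theorem result {k : Type u} [Field k] {𝒱 : VarClass k} {ops : CycleOps 𝒱}
    {W : WeilCohomology.{u, v} ops} {R : CycRel 𝒱} (hR : IsChow W R)
    {Z S : 𝒱.Obj} {g : Z ⟶ S} {G : S.Cycles} {E D : Z.Cycles}
    (hG : S.IsCyc 1 G) (hE : Z.IsCyc 1 E) (Q : PerverseDecomposition W g G E)
    (hB : StandardB W Z D) (hN : NilHomTrivial W R Z)
    {π : ℕ → (Z.prod Z).Cycles} (hπ : IsCKDec W R Z π) (hπD : MurreD R W π) :
    (∀ (F : 𝒱.Obj) (i : F ⟶ Z) (ρ : ℕ → (F.prod F).Cycles), IsSmoothFibre Q i →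
      IsFixedSystem W R i ρ → MurreD R W ρ) ∧
    (∀ (F : 𝒱.Obj) (i : F ⟶ Z), IsSmoothFibre Q i → FixedOrAlgebraic W i →
      ∃ π', IsCKDec W R F π' ∧
        (MurreD R W π' ↔ ∀ l z, 2 * l ≤ F.dim → F.IsCyc l z → hcl W z = 0 →
          R.Eqv (image ops (π' F.dim) z) 0) ∧
        (F.dim ≤ 3 → PicardProperty R W F → MurreD R W π')) :=
  Pool.Agent.Y106.CG.topD hR hG hE Q hB hN hπ hπD

end Pool.Agent.Results.MP_583472_ag.FibresOfFamilies
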