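import Pool.Agent.Y110.Main

/-!
# Murre's conjecture (D), faithfulness and finite-dimensional motives

`𝒱` is any class of smooth projective geometrically irreducible varieties over the field `k` closed
under products (for example all of them, or the powers of one variety), `C` the Chow groups with
rational coefficients (in the form of their formal properties, `IsChowProj`) and `H` a Weil
cohomology theory (`IsWeilProj`, `GradedCommutative`).
-/

open CategoryTheory AlgebraicGeometry

set_option autoImplicit false

universe u v w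

namespace Pool.Agent.Results.MP_583472_ag.KimuraFiniteness

open Pool.Agent.H914 Pool.Agent.W492.BB Pool.Agent.TH133 Pool.Agent.TH829.Kim Pool.Agent.Y110

/-- Murre's conjecture (D), for all varieties and all their Chow-Kunneth decompositions, is
equivalent to each of the following statements: (D) for cycles of middle dimension; homologically
trivial self-correspondences strictly lower the weights; every variety with a Chow-Kunneth
decomposition has a finite-dimensional motive (or: a motive without phantoms) and satisfies (D) for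
one Chow-Kunneth decomposition; Murre's independence conjecture (C) holds and the endomorphisms of
the motives `h^a(X)` act faithfully on the cohomology. -/
theorem result {k : Type u} [Field k] {𝒱 : VarClass k} (C : TheoryData.{u, v, 0} 𝒱 ℚ)
    [IsChowProj C] {K : Type w} [Field K] (H : WeilTheoryData.{u, v, w} C K) [IsWeilProj H]
    (hg : GradedCommutative H) :
    List.TFAE [∀ (X : 𝒱.Obj) (π : ℕ → C.A (X.prod X)), IsCK H X π → ∀ i, MurreDFor H π i,
      ∀ (X : 𝒱.Obj) (π : ℕ → C.A (X.prod X)), IsCK H X π → ∀ i, X.dim = 2 * i →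
        MurreDFor H π i,
      ∀ X : 𝒱.Obj, StrictlyLowers H X,
      ∀ X : 𝒱.Obj, (∃ π, IsCK H X π) → IsKimuraFinite C (ratFam C) X ∧
        ∃ π, IsCK H X π ∧ ∀ i, MurreDFor H π i,
      ∀ X : 𝒱.Obj, (∃ π, IsCK H X π) → NoPhantoms H X ∧
        ∃ π, IsCK H X π ∧ ∀ i, MurreDFor H π i,
      ∀ X : 𝒱.Obj, Independent H X ∧ EndFaithful H X] := by
  have hd : ∀ X : 𝒱.Obj, (X.prod X).dim = 2 * X.dim := fun X => by
    rw [VarClass.Obj.dim_prod, two_mul]
  tfae_have 1 → 2 := fun h X π hπ i _ => h X π hπ i
  tfae_have 2 → 3 := fun h X => strictlyLowers_of_D fun π hπ => h _ π hπ X.dim (hd X)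
  tfae_have 3 → 1 := fun h X π hπ i => D_of_strictlyLowers (h X) hπ i
  tfae_have 3 → 4 := by
    intro h X hX
    refine ⟨kimura_of_noPhantoms hg (fun Y hY => ?_) X hX, ?_⟩
    · obtain ⟨π, hπ⟩ := hY
      exact noPhantoms_of_strictlyLowers (h Y) hπ
    · obtain ⟨π, hπ⟩ := hX
      exact ⟨π, hπ, fun i => D_of_strictlyLowers (h X) hπ i⟩
  tfae_have 4 → 5 := fun h X hX => ⟨noPhantoms_of_kimura (h X hX).1, (h X hX).2⟩
  tfae_have 5 → 1 := by
    intro h X π' hπ' i
    obtain ⟨π, hπ, hD⟩ := (h X ⟨π', hπ'⟩).2
    exact D_of_kimura (kimura_of_noPhantoms hg (fun Y hY => (h Y hY).1) X ⟨π', hπ'⟩) hπ hπ' (hD i)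
  tfae_have 1 → 6 := by
    intro h X
    have hS : StrictlyLowers H X := strictlyLowers_of_D fun π hπ => h _ π hπ X.dim
    exact ⟨C_of_zeroIsAll (fun Y i π hπ => fil_zero_of_D hπ (h Y π hπ i)) X,
      fun π hπ γ hγ hcl a => hS π hπ γ hγ hcl a a le_rfl⟩
  tfae_have 6 → 3 := fun h X => strictlyLowers_of_faithful (fun Y => (h Y).1) (h X).2
  tfae_finish

end Pool.Agent.Results.MP_583472_ag.KimuraFiniteness
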