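import Pool.Agent.Y107.MC.Thm

/-!
# Murre's conjecture (D) and Chow-Kunneth decompositions of large coniveau

`𝒱` is a class of smooth projective geometrically irreducible varieties over the field `k` closed
under products (for example all of them), `C` the Chow groups with rational coefficients (in the
form of their formal properties, `IsChowProj`) and `H` a Weil cohomology theory (`IsWeilProj`) for
which the theory of the Picard variety holds (`PicardProperty`).

Let `π` be a Chow-Kunneth decomposition of `X`. If the motives `(X, π_i)` are direct factors of sums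
of motives `h(Z)(-m)` with `m ≥ c_i`, where `c_i ≥ (i - 3) / 2` and, for even `i`,
`c_i ≥ (i - 2) / 2`, then (D) holds for `π`. These conditions hold if `dim X ≤ 3` and `π` satisfies
motivic hard Lefschetz. By the theorem of `MP_8a7054_ag.LefschetzEquation` such a decomposition
exists as soon as a linear equation in `CH^*(X × X)` has a solution.
-/

open CategoryTheory AlgebraicGeometry

set_option autoImplicit false

universe u v w

namespace Pool.Agent.Results.MP_583472_ag.LefschetzThreefolds

open Pool.Agent.H914 Pool.Agent.W492.BB Pool.Agent.TH133 Pool.Agent.Y107 Pool.Agent.Y107.MC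
  Pool.Agent.Y107.SJ

/-- Murre's conjecture (D) for a Chow-Kunneth decomposition `π` holds if the motives `(X, π_i)` have
Chow coniveau at least `(i - 3) / 2` and, for even `i`, at least `(i - 2) / 2`. In particular it
holds for all Chow-Kunneth decompositions of varieties of dimension at most three which satisfy
motivic hard Lefschetz, and such a decomposition exists if `L = [L, [L, z]]` is solvable. -/
theorem result {k : Type u} [Field k] {𝒱 : VarClass k} (C : TheoryData.{u, v, 0} 𝒱 ℚ)
    [IsChowProj C] {K : Type w} [Field K] (H : WeilTheoryData.{u, v, w} C K) [IsWeilProj H]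
    (hPic : PicardProperty H) (X : 𝒱.Obj) :
    (∀ π, IsCK H X π → ∀ c : ℕ → ℕ,
      (∀ i ≤ 2 * X.dim, ChowConiveau C (c i) (π i) ∧ i ≤ 2 * c i + 3) →
      (∀ i ≤ X.dim, 2 * i ≤ 2 * c (2 * i) + 2) → SatisfiesD H π) ∧
    (X.dim ≤ 3 → ∀ L : C.A (X.prod X), C.Deg ((X.dim : ℤ) + 1) L →
      (∀ π, IsCK H X π → MotivicLefschetz C L π → SatisfiesD H π) ∧
      (tp C L = L → HardLefschetzCor H X L → InSquare C L →
        ∃ π, SelfDualLefschetz H L π ∧ SatisfiesD H π)) := by
  refine ⟨fun π hπ c hc he j x => ?_, fun hd L hL => ⟨fun π hπ h j x =>
    murreD_lefschetz hL hPic hd hπ h j x, fun htp hHL hS =>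
    exists_satisfiesD hPic hd hL htp hHL hS⟩⟩
  exact murreD hπ hPic (fun i hi => (hc i hi).1) (fun i hi => (hc i hi).2) he j x

end Pool.Agent.Results.MP_583472_ag.LefschetzThreefolds
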