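import Pool.Agent.Y148.KP.Translate

/-!
# Murre's conjecture (D) and products of homologically trivial cycles

`𝒱` is any class of smooth projective geometrically irreducible varieties over the field `k` closed
under products (for example all complex ones, or all products of complex curves), `C` the Chow
groups with rational coefficients (in the form of their formal properties, `IsChowProj`), `H` a Weil
cohomology theory (`IsWeilProj`), and `E` a fixed curve in `𝒱` of positive genus (for example an
elliptic curve): the restriction of `Δ - o × E - E × o` to the diagonal, a zero-cycle of degree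
`-2g`, is not homologically trivial. The geometric input is the theorem of Bloch and Srinivas for
products with curves (`FibreProperty`).

The following are equivalent:

1. Murre's conjecture (D) for all `X` in `𝒱`, all Chow-Kunneth decompositions of `X` and all
   codimensions;
2. the product `x ⬝ y` of homologically trivial cycles `x ∈ CH^i(X)`, `y ∈ CH^j(X)` is always in the
   step `F^2 CH^(i+j)(X)`;
3. (2) only for cycles `x ∈ CH^i(X × E)`, `dim X = 2i`, and the pull-backs `y` of the divisors of
   degree zero on `E`;
4. for `dim X = 2i`, `a ≥ 2i` and divisors `ξ` of degree zero on `E`: `(π_a)_* y × ξ = 0` for all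
   homologically trivial `y ∈ CH^i(X)`, and `(π_a)_* Γ_* ξ = 0` for all homologically trivial
   `Γ ∈ CH^i(E × X)`;
5. for `dim X = 2i`: `F^0 CH^i(X) = CH^i(X)`, and `(π_(2i))_* y × ξ = 0` for all homologically
   trivial `y ∈ CH^i(X)` and all divisors `ξ` of degree zero on `E`.

The proof of 4 ⇒ 1. By duality it is enough to consider cycles of codimension `i` on varieties of
dimension `2i`. Let `y = (π_a)_* y` be homologically trivial, `a ≥ 2i`. The class `y × h^1(E)` on
`X × E × E`, the image of `y` under the correspondence `X ⊢ X × E × E` given by the projector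
`ρ = Δ - o × E - E × o`, vanishes on all fibres over the second factor `E`, because these fibres are
of the form `y × ξ` with `ξ` of degree zero. So it is a sum of classes `x × ξ` with
`x ∈ CH^i(X × E)`, and we can assume that `ρ_* ξ = ξ`. Restricting to the diagonal of `E`, pushing
forward to `X` and applying `π_a`, the class `y × h^1(E)` becomes `-2g y`, while `x × ξ` becomes
`(π_a)_* Γ_* ξ` where `Γ = π_a ∘ x ∘ ρ` is homologically trivial for reasons of weight. Hence
`2g y = 0`.
-/

open CategoryTheory AlgebraicGeometry

set_option autoImplicit false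

universe u v w

namespace Pool.Agent.Results.MP_583472_ag.ProductsOfTrivialCycles

open Pool.Agent.H914 Pool.Agent.H914.VarClass Pool.Agent.H914.VarClass.Obj Pool.Agent.W492.BB
  Pool.Agent.TH133 Pool.Agent.Y148.BS Pool.Agent.Y148.SS

/-- Murre's conjecture (D), for all varieties and all their Chow-Kunneth decompositions, is
equivalent to each of the following statements: products of homologically trivial cycles are in
`F^2`; the same only for products with divisors pulled back from a fixed curve `E`, in the middle
codimension; the vanishing of the exterior products of `(π_a)_* y` with such divisors and of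
`(π_a)_* Γ_* ξ`, for `a ≥ 2i = dim X`; the first half of Murre's conjecture (B) in the middle
codimension, together with the vanishing of the exterior products of `(π_(2i))_* y` with divisors of
degree zero on `E`. -/
theorem result {k : Type u} [Field k] {𝒱 : VarClass k} (C : TheoryData.{u, v, 0} 𝒱 ℚ)
    [IsChowProj C] {K : Type w} [Field K] (H : WeilTheoryData.{u, v, w} C K) [IsWeilProj H]
    (hF : FibreProperty C) (E : 𝒱.Obj) (o : C.A E) (hE : E.dim = 1) (ho : IsDegreeOne C o)
    (hg : ¬ IsHomTrivial H (C.up (Obj.lift (𝟙 E) (𝟙 E)) (oddPart C o))) :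
    List.TFAE [
      ∀ X : 𝒱.Obj, MurreConjectureD H X,
      ∀ (X : 𝒱.Obj) (π : ℕ → C.A (X.prod X)), IsChowKunneth H π → ∀ (i j : ℕ) (x y : C.A X),
        C.Deg i x → IsHomTrivial H x → C.Deg j y → IsHomTrivial H y →
          InStep π (i + j) 2 (C.mul x y),
      ∀ (X : 𝒱.Obj) (i : ℕ), X.dim = 2 * i → ∀ π : ℕ → C.A ((X.prod E).prod (X.prod E)),
        IsChowKunneth H π → ∀ (x : C.A (X.prod E)) (ξ : C.A E), C.Deg i x → IsHomTrivial H x →
          C.Deg 1 ξ → IsHomTrivial H ξ → InStep π (i + 1) 2 (C.mul x (C.up (snd X E) ξ)),
      ∀ (X : 𝒱.Obj) (i : ℕ), X.dim = 2 * i → ∀ π : ℕ → C.A (X.prod X), IsChowKunneth H π →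
        ∀ a : ℕ, 2 * i ≤ a → ∀ ξ : C.A E, C.Deg 1 ξ → IsHomTrivial H ξ →
          (∀ y : C.A X, C.Deg i y → IsHomTrivial H y → cross C (C.act (π a) y) ξ = 0) ∧
          ∀ Γ : C.A (E.prod X), C.Deg i Γ → IsHomTrivial H Γ → C.act (π a) (C.act Γ ξ) = 0,
      ∀ (X : 𝒱.Obj) (i : ℕ), X.dim = 2 * i → ∀ π : ℕ → C.A (X.prod X), IsChowKunneth H π →
        ∀ y : C.A X, C.Deg i y → InStep π i 0 y ∧ ∀ ξ : C.A E, C.Deg 1 ξ → IsHomTrivial H ξ →
          IsHomTrivial H y → cross C (C.act (π (2 * i)) y) ξ = 0] :=
  Pool.Agent.Y148.KP.products hF hE ho hg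

end Pool.Agent.Results.MP_583472_ag.ProductsOfTrivialCycles
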